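import Pool.Agent.H58.HN.TargetsG

/-! hnet_modules, row LB: independence of the pair of slices. -/

set_option autoImplicit false

namespace Pool.Agent.H22.HN

open Pool.Agent.H58.HN
open Pool.Agent.H68.BP Pool.Agent.H58.SF Pool.Agent.H53.RG

private theorem lim_unique {V T Y : Type} {p : T → Ultrafilter V} {Φ : V → Y} {φ ψ : T → Y}
    (h : IsLim p Φ φ) (h' : IsLim p Φ ψ) : φ = ψ := by
  funext t
  obtain ⟨x, hx, hx'⟩ := ((h t).and (h' t)).exists
  rw [← hx, ← hx']

private theorem walk_fun' {V : Type} {E : V → V → Prop} {n : ℕ} {x y : V} (h : Walk E n x y) :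
    ∃ p : ℕ → V, p 0 = x ∧ p n = y ∧ ∀ k < n, E (p k) (p (k + 1)) := by
  induction n generalizing x with
  | zero => exact ⟨fun _ => x, rfl, h, fun k hk => absurd hk (Nat.not_lt_zero k)⟩
  | succ n ih =>
    obtain ⟨z, hz, hw⟩ := h
    obtain ⟨p, h0, hn, hp⟩ := ih hw
    refine ⟨fun k => Nat.casesOn k x p, rfl, hn, fun k hk => ?_⟩
    cases k with
    | zero =>
      show E x (p 0)
      rw [h0]
      exact hz
    | succ k => exact hp k (by omega)

theorem pf_LB (hA : T_LA) (hC : T_GC) : T_LB := by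
  intro V T A I _ _ E R _ act p hsE hodd hG hdeg hU f hf i Φ Φ' Ψ Ψ' φ φ' ψ ψ' hΦ hΨ
    lΦ lΦ' lΨ lΨ'
  obtain ⟨L, hL, hwalk⟩ := hodd
  obtain ⟨a, ha⟩ := hL
  have := hG.fin
  choose u u' huu hu hu' using hΦ
  choose v v' hvv hv hv' using hΨ
  have hq : ∀ (F : Finset V) (j : I), ∃ q : ℕ → V, q 0 = u' F j ∧ q L = v F j ∧
      ∀ k < L, E (q k) (q (k + 1)) := fun F j => walk_fun' (hwalk _ _)
  choose q hq0 hqL hqE using hq
  obtain ⟨w, hw⟩ : ∃ w : Finset V → ℕ → I → V, w = fun F k =>
      if k = 0 then u F else if k ≤ L + 1 then (fun j => q F j (k - 1)) else v' F := ⟨_, rfl⟩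
  have w0 : ∀ F, w F 0 = u F := fun F => by rw [hw]; simp
  have w1 : ∀ F, w F 1 = u' F := by
    intro F
    rw [hw]
    simp only [one_ne_zero, if_false]
    rw [if_pos (by omega)]
    funext j
    exact hq0 F j
  have wL : ∀ F, w F (L + 1) = v F := by
    intro F
    rw [hw]
    simp only [Nat.add_eq_zero_iff, one_ne_zero, and_false, if_false, le_refl, if_true,
      Nat.add_sub_cancel]
    funext j
    exact hqL F j
  have wL' : ∀ F, w F (L + 2) = v' F := by
    intro F
    rw [hw]
    simp only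
    rw [if_neg (by omega), if_neg (by omega)]
  have wE : ∀ F k, k < L + 2 → Pw I E (w F k) (w F (k + 1)) := by
    intro F k hk j
    by_cases h0 : k = 0
    · rw [h0, w0, Nat.zero_add, w1]
      exact huu F j
    · by_cases h1 : k = L + 1
      · rw [h1, wL, wL']
        exact hvv F j
      · have h2 : k - 1 < L := by omega
        have h3 := hqE F j (k - 1) h2
        rw [hw]
        simp only
        rw [if_neg h0, if_pos (by omega), if_neg (by omega), if_pos (by omega)]
        rw [Nat.sub_add_cancel (by omega)] at h3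
        exact h3
  obtain ⟨W, hW⟩ : ∃ W : ℕ → V → T, ∀ k x, ∀ᶠ F in ((cone V : Ultrafilter (Finset V)) :
      Filter (Finset V)), sl f i (w F k) x = W k x :=
    ⟨fun k x => ulim (cone V) (fun F => sl f i (w F k) x),
      fun k x => ulim_spec (cone V) (fun F => sl f i (w F k) x)⟩
  have hid : ∀ (k : ℕ) (Θ : V → T), (∀ F, ∀ x ∈ F, sl f i (w F k) x = Θ x) → W k = Θ := by
    intro k Θ h
    funext x
    obtain ⟨F, h1, h2⟩ := ((hW k x).and (cone_mem {x})).exists
    rw [← h1]
    exact h F x (h2 (Finset.mem_singleton_self x))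
  have hW0 : W 0 = Φ := hid 0 Φ fun F x hx => by rw [w0]; exact hu F x hx
  have hW1 : W 1 = Φ' := hid 1 Φ' fun F x hx => by rw [w1]; exact hu' F x hx
  have hWL : W (L + 1) = Ψ := hid (L + 1) Ψ fun F x hx => by rw [wL]; exact hv F x hx
  have hWL' : W (L + 2) = Ψ' := hid (L + 2) Ψ' fun F x hx => by rw [wL']; exact hv' F x hx
  have hWE : ∀ k, k < L + 2 → Arc E R (W k) (W (k + 1)) := by
    intro k hk x y hxy
    obtain ⟨F, h1, h2⟩ := ((hW k x).and (hW (k + 1) y)).exists
    rw [← h1, ← h2]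
    refine hf _ _ fun j => ?_
    by_cases hj : j = i
    · rw [hj, Function.update_self, Function.update_self]
      exact hxy
    · rw [Function.update_of_ne hj, Function.update_of_ne hj]
      exact wE F k hk j
  have hlim : ∀ k, ∃ ω : T → T, IsLim p (W k) ω := fun k => (hA V T T E R R p hU).1 (W k)
  choose ω hω using hlim
  have e0 : ω 0 = φ := by
    have h := hω 0
    rw [hW0] at h
    exact lim_unique h lΦ
  have e1 : ω 1 = φ' := by
    have h := hω 1
    rw [hW1] at h
    exact lim_unique h lΦ'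
  have eL : ω (L + 1) = ψ := by
    have h := hω (L + 1)
    rw [hWL] at h
    exact lim_unique h lΨ
  have eL' : ω (L + 2) = ψ' := by
    have h := hω (L + 2)
    rw [hWL'] at h
    exact lim_unique h lΨ'
  have h := hC T A R act hG.symm hdeg (a + 1) ω (fun k hk =>
    (hA V T T E R R p hU).2 (W k) (W (k + 1)) (ω k) (ω (k + 1)) (hω k) (hω (k + 1))
      (hWE k (by omega)))
  have e2 : 2 * (a + 1) = L + 1 := by omega
  rw [e2, e0, e1, eL, eL'] at h
  exact h

end Pool.Agent.H22.HN
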