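import Pool.Agent.H58.HN.TargetsG
import Pool.Agent.H53.FC.Graph

/-! RB: the component of a finite graph with the same images. -/

set_option autoImplicit false

namespace Pool.Agent.H22.HN

open Pool.Agent.H68.BP Pool.Agent.H58.SF Pool.Agent.H53.RG Pool.Agent.H53.FC Pool.Agent.H58.HN

variable {V T : Type} {E : V → V → Prop} {R : T → T → Prop}

private theorem walk_seq {w : ℕ → V} (hw : ∀ i, E (w i) (w (i + 1))) :
    ∀ m k, Walk E m (w k) (w (k + m)) := by
  intro m
  induction m with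
  | zero => exact fun k => rfl
  | succ m ih =>
    intro k
    refine ⟨w (k + 1), hw k, ?_⟩
    have := ih (k + 1)
    rwa [show k + 1 + m = k + (m + 1) by omega] at this

private theorem rtg_of_walk : ∀ {n : ℕ} {x y : V}, Walk E n x y → Relation.ReflTransGen E x y := by
  intro n
  induction n with
  | zero =>
    intro x y h
    have hxy : x = y := h
    subst hxy
    exact Relation.ReflTransGen.refl
  | succ n ih =>
    rintro x y ⟨z, hz, h⟩
    exact Relation.ReflTransGen.head hz (ih h)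

private theorem walk_parity {c : V → Bool} (hc : ∀ x y, E x y → c x ≠ c y) :
    ∀ {n : ℕ} {x y : V}, Walk E n x y → (c x = c y ↔ Even n) := by
  intro n
  induction n with
  | zero =>
    intro x y h
    have hxy : x = y := h
    subst hxy
    simp
  | succ n ih =>
    rintro x y ⟨z, hz, h⟩
    rw [Nat.even_add_one, ← ih h]
    have h1 := hc x z hz
    revert h1
    generalize c x = a
    generalize c y = b
    generalize c z = d
    revert a b d
    decide

/-- walks of one odd length in a finite component -/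
theorem finite_walk [Finite T] (hs : ∀ s t, R s t → R t s) {t₀ : T} {m : ℕ} (hm : Odd m)
    (hw : Walk R m t₀ t₀) : ∃ L, Odd L ∧ ∀ s t, Walk (CE R t₀) L s t := by
  classical
  have h : ∀ q : Cmp R t₀ × Cmp R t₀, ∃ N, ∀ n, N ≤ n → Walk R n q.1.1 q.2.1 := fun q =>
    long_walks hs hm hw q.1.2 q.2.2
  choose N hN using h
  have hf : Finite (Cmp R t₀) := Subtype.finite
  obtain ⟨M, hM⟩ := (Set.finite_range N).bddAbove
  refine ⟨2 * M + 1, ⟨M, rfl⟩, fun s t => ?_⟩
  have h1 : N (s, t) ≤ M := hM ⟨(s, t), rfl⟩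
  exact walk_comp (hN (s, t) (2 * M + 1) (by omega)) s.2 t.2

/-- homomorphisms of a component are bijections onto the component -/
theorem comp_bij [Finite T] (hs : ∀ s t, R s t → R t s)
    (hmin : ∀ φ : T → T, Arc R R φ φ → Function.Bijective φ) {t₀ : T} (φ : Cmp R t₀ → T)
    (hφ : Arc (CE R t₀) R φ φ) : ∃ ψ : Cmp R t₀ → Cmp R t₀,
      Function.Bijective ψ ∧ ∀ s, φ s = (ψ s).1 := by
  classical
  let Φ : T → T := fun t => if h : Relation.ReflTransGen R t₀ t then φ ⟨t, h⟩ else t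
  have e1 : ∀ t (h : Relation.ReflTransGen R t₀ t), Φ t = φ ⟨t, h⟩ := fun t h => dif_pos h
  have e2 : ∀ t, ¬ Relation.ReflTransGen R t₀ t → Φ t = t := fun t h => dif_neg h
  have hΦ : Arc R R Φ Φ := by
    intro s t hst
    by_cases h : Relation.ReflTransGen R t₀ s
    · have h' : Relation.ReflTransGen R t₀ t := h.tail hst
      rw [e1 s h, e1 t h']
      exact hφ ⟨s, h⟩ ⟨t, h'⟩ hst
    · have h' : ¬ Relation.ReflTransGen R t₀ t := fun h' => h (h'.tail (hs _ _ hst))
      rw [e2 s h, e2 t h']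
      exact hst
  have hb := hmin Φ hΦ
  have hin : ∀ s : Cmp R t₀, Relation.ReflTransGen R t₀ (φ s) := by
    intro s
    by_contra hcon
    have h1 : Φ (φ s) = Φ s.1 := by
      rw [e2 _ hcon]
      exact (e1 s.1 s.2).symm
    have h2 := hb.1 h1
    exact hcon (h2 ▸ s.2)
  have hf : Finite (Cmp R t₀) := Subtype.finite
  refine ⟨fun s => ⟨φ s, hin s⟩, Finite.injective_iff_bijective.1 ?_, fun s => rfl⟩
  intro s s' h
  have h1 : φ s = φ s' := congrArg Subtype.val h
  have h2 : Φ s.1 = Φ s'.1 := by rw [e1 s.1 s.2, e1 s'.1 s'.2]; exact h1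
  exact Subtype.ext (hb.1 h2)

theorem pf_RB : Pool.Agent.H58.HN.T_RB := by
  classical
  intro V T E R hV hol hs hI hmin hn2
  have hfin := hI.fin
  have hne : Nonempty V := by
    by_contra hcon
    rw [not_nonempty_iff] at hcon
    exact hn2 ⟨fun v => isEmptyElim v, fun v => isEmptyElim v⟩
  -- an odd closed walk of the finite graph
  have hT : OddWalk R := by
    by_contra hcon
    obtain ⟨c, hc⟩ := Pool.Agent.H53.SF.pf_NB T R hI.symm hcon
    obtain ⟨c', hc'⟩ := (hI.img Bool (fun a b => a ≠ b) (fun a b h => h.symm)).2 ⟨c, hc⟩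
    refine hn2 ⟨fun v => if c' v then 1 else 0, fun x y hxy he => ?_⟩
    have h1 : c' x ≠ c' y := hc' x y hxy
    have h2 : (if c' x = true then (1 : Fin 2) else 0) = if c' y = true then 1 else 0 := he
    revert h1 h2
    generalize c' x = a
    generalize c' y = b
    clear he
    revert a b
    decide
  obtain ⟨n, w, hw, hper⟩ := hT
  have hcl : Walk R (2 * n + 1) (w 0) (w 0) := by
    have h1 := walk_seq hw (2 * n + 1) 0
    rwa [hper] at h1
  obtain ⟨t₀, ht₀⟩ : ∃ t, t = w 0 := ⟨w 0, rfl⟩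
  rw [← ht₀] at hcl
  have hodd1 : Odd (2 * n + 1) := ⟨n, rfl⟩
  obtain ⟨L₀, hL₀, hwalk₀⟩ := finite_walk hI.symm hodd1 hcl
  have hfS : Finite (Cmp R t₀) := Subtype.finite
  -- the family of ultrafilters
  have hM : MapsToFiniteImages (CE R t₀) E := by
    intro H _ Q hQ hc
    obtain ⟨φ, hφ⟩ := (hI.img H Q hQ).1 hc
    exact ⟨fun s => φ s.1, fun s t hst => hφ _ _ hst⟩
  obtain ⟨p₀, hp₀⟩ := exists_family (mapsToImages hs hM)
  obtain ⟨P, r, hr, hP⟩ := exists_retract hol hs
  have hp := hp₀.map (r := r) (fun l x hx => hr _ _ hx)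
  obtain ⟨p, hpdef⟩ : ∃ p : Cmp R t₀ → Ultrafilter V, p = fun s => (p₀ s).map r := ⟨_, rfl⟩
  rw [← hpdef] at hp
  have hadj : ∀ s t, CE R t₀ s t → ∀ A B : Set V, A ∈ p s → B ∈ p t →
      ∃ a ∈ A, ∃ b ∈ B, E a b := by
    intro s t hst A B hA hB
    obtain ⟨a, ha, h1⟩ := hp (0 : Fin 1) ![s, t] hst ![A, B] (by
      intro j
      fin_cases j
      · exact hA
      · exact hB)
    exact ⟨a (0 : Fin 2), h1 (0 : Fin 2), a (1 : Fin 2), h1 (1 : Fin 2), ha⟩
  -- the component
  have hcomp : ∀ s, ∃ y ∈ P, {x | Relation.ReflTransGen E y x} ∈ p s := by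
    intro s
    have h1 : (⋃ y ∈ (P : Set V), {x | Relation.ReflTransGen E y x}) ∈ p s := by
      have h2 : ∀ x, r x ∈ ⋃ y ∈ (P : Set V), {x | Relation.ReflTransGen E y x} := by
        intro x
        obtain ⟨y, hy, hyx⟩ := hP x
        exact Set.mem_biUnion (show y ∈ (P : Set V) from hy) hyx
      rw [hpdef]
      exact Filter.Eventually.of_forall (f := (p₀ s : Filter V)) h2
    rw [Ultrafilter.finite_biUnion_mem_iff P.finite_toSet] at h1
    exact h1
  obtain ⟨s₀, hs₀⟩ : ∃ s₀ : Cmp R t₀, s₀.1 = t₀ := ⟨⟨t₀, Relation.ReflTransGen.refl⟩, rfl⟩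
  obtain ⟨y₀, hy₀P, hy₀⟩ := hcomp s₀
  have hC : ∀ s, {x | Relation.ReflTransGen E y₀ x} ∈ p s := by
    intro s
    have h1 : Relation.ReflTransGen (CE R t₀) s₀ s := rtg_of_walk (hwalk₀ s₀ s)
    induction h1 with
    | refl => exact hy₀
    | @tail s t _ hst ih =>
      obtain ⟨y, hy, hyt⟩ := hcomp t
      obtain ⟨a, ha, b, hb, hab⟩ := hadj s t hst _ _ ih hyt
      have h2 : {x | Relation.ReflTransGen E y x} = {x | Relation.ReflTransGen E y₀ x} := by
        have h3 : Relation.ReflTransGen E y₀ y :=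
          (ha.tail hab).trans (rtg_symm hs hb)
        ext x
        exact ⟨fun hx => h3.trans hx, fun hx => (rtg_symm hs h3).trans hx⟩
      rw [h2] at hyt
      exact hyt
  -- an odd closed walk in the component
  have hodd : OddWalk (fun x y => E x y ∧ Relation.ReflTransGen E y₀ x ∧
      Relation.ReflTransGen E y₀ y) := by
    by_contra hcon
    obtain ⟨κ, hκ⟩ := Pool.Agent.H53.SF.pf_NB V (fun x y => E x y ∧
      Relation.ReflTransGen E y₀ x ∧ Relation.ReflTransGen E y₀ y)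
      (fun a b hab => ⟨hs _ _ hab.1, hab.2.2, hab.2.1⟩) hcon
    choose b hb using fun s => exists_lim (p s) κ
    have hcol : ∀ s t, CE R t₀ s t → b s ≠ b t := by
      intro s t hst he
      obtain ⟨x, hx, y, hy, hxy⟩ := hadj s t hst _ _ (Filter.inter_mem (hb s) (hC s))
        (Filter.inter_mem (hb t) (hC t))
      have h1 : κ x = b s := hx.1
      have h2 : κ y = b t := hy.1
      exact hκ x y ⟨hxy, hx.2, hy.2⟩ (by rw [h1, h2, he])
    have h1 := (walk_parity hcol (hwalk₀ s₀ s₀)).1 rfl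
    exact (Nat.not_even_iff_odd.2 hL₀) h1
  obtain ⟨k, v, hv, hvper⟩ := hodd
  have hclosed : Walk E (2 * k + 1) (v 0) (v 0) := by
    have h1 := walk_seq (fun i => (hv i).1) (2 * k + 1) 0
    rwa [hvper] at h1
  have hodd2 : Odd (2 * k + 1) := ⟨k, rfl⟩
  obtain ⟨P2, hP2⟩ := hol 2
  obtain ⟨L, hL⟩ := uniform_walk hs ⟨P2, fun x => by
    obtain ⟨y, hy, g, hg, hgy⟩ := hP2 x
    refine ⟨y, hy, g, fun a b => ?_, hgy⟩
    exact hg (0 : Fin 1) ![a, b]⟩ hodd2 hclosed
  have hto : ∀ y, Relation.ReflTransGen E y₀ y → Relation.ReflTransGen E (v 0) y := fun y hy =>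
    (rtg_symm hs (hv 0).2.1).trans hy
  have hrange : ∀ s, Set.range (Subtype.val : Cmp E y₀ → V) ∈ p s := by
    intro s
    have h1 : Set.range (Subtype.val : Cmp E y₀ → V) = {x | Relation.ReflTransGen E y₀ x} :=
      Subtype.range_val
    rw [h1]
    exact hC s
  refine ⟨y₀, t₀, fun s => (p s).comap Subtype.val_injective (hrange s), ?_, ?_,
    ⟨L₀, hL₀, hwalk₀⟩,
    fun φ hφ => comp_bij hI.symm hmin φ hφ⟩
  · intro s t hst A hA B hB
    rw [Ultrafilter.mem_comap] at hA hB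
    obtain ⟨a, ⟨a', ha', rfl⟩, b, ⟨b', hb', rfl⟩, hab⟩ := hadj s t hst _ _ hA hB
    exact ⟨a', ha', b', hb', hab⟩
  · rcases Nat.even_or_odd L with hL2 | hL2
    · refine ⟨L + 1, hL2.add_one, fun x y => ?_⟩
      obtain ⟨N, hN⟩ := long_walks hs hodd2 hclosed (hto x.1 x.2) (hto x.1 x.2)
      obtain ⟨z, hz, _⟩ := hN (N + 1) (by omega)
      have hz' : Relation.ReflTransGen E y₀ z := x.2.tail hz
      exact walk_comp (n := L + 1) (y := y.1)
        ⟨z, hz, hL z y.1 (hto z hz') (hto y.1 y.2)⟩ x.2 y.2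
    · exact ⟨L, hL2, fun x y => walk_comp (hL x.1 y.1 (hto x.1 x.2) (hto y.1 y.2)) x.2 y.2⟩

end Pool.Agent.H22.HN
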