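import Pool.Agent.H58.HN.TargetsG

/-! RC: reduction to the components. -/

set_option autoImplicit false

namespace Pool.Agent.H22.HN

open Pool.Agent.H68.BP Pool.Agent.H58.SF Pool.Agent.H53.RG Pool.Agent.H53.FC Pool.Agent.H58.HN

variable {V T : Type} {E : V → V → Prop} {R : T → T → Prop}

private theorem walk_pi {I : Type} : ∀ {n : ℕ} {x y : I → V}, (∀ i, Walk E n (x i) (y i)) →
    Walk (Pw I E) n x y := by
  intro n
  induction n with
  | zero => exact fun h => funext h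
  | succ n ih =>
    intro x y h
    choose z hz hw using h
    exact ⟨z, hz, ih hw⟩

private theorem rtg_of_walk : ∀ {n : ℕ} {x y : V}, Walk E n x y → Relation.ReflTransGen E x y := by
  intro n
  induction n with
  | zero =>
    intro x y h
    have hxy : x = y := h
    subst hxy
    exact Relation.ReflTransGen.refl
  | succ n ih =>
    rintro x y ⟨z, hz, h⟩
    exact Relation.ReflTransGen.head hz (ih h)

private theorem map_six' {x₀ : V} (a b c d e f : Cmp E x₀) :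
    (fun i => ((![a, b, c, d, e, f] : Fin 6 → Cmp E x₀) i).1) =
      ![a.1, b.1, c.1, d.1, e.1, f.1] := by
  funext i
  fin_cases i <;> rfl

theorem pf_RC (hFA : Pool.Agent.H58.HN.T_FA) (hRA : Pool.Agent.H58.HN.T_RA)
    (hRB : Pool.Agent.H58.HN.T_RB) :
    Pool.Agent.H58.HN.T_RC := by
  classical
  intro V T₁ E R₁ hV hol hs hI₁ hn2
  obtain ⟨T, R, hI, hmin⟩ := hRA V T₁ E R₁ hI₁
  have hfin := hI.fin
  have hne : Nonempty V := by
    by_contra hcon
    rw [not_nonempty_iff] at hcon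
    exact hn2 ⟨fun v => isEmptyElim v, fun v => isEmptyElim v⟩
  obtain ⟨c, hc⟩ : ∃ c : V → T, ∀ x y, E x y → R (c x) (c y) :=
    (hI.img T R hI.symm).2 ⟨id, fun s t h => h⟩
  refine K3_of_no_olsak hV hol (𝕋 := graph R) ⟨c, fun l x hx => hc _ _ hx⟩ fun h hh ho => ?_
  obtain ⟨x₀, t₀, p, hp, ⟨L, hL, hLw⟩, ⟨L', hL', hLw'⟩, hmap⟩ :=
    hRB V T E R hV hol hs hI hmin hn2
  have hA : Arc (Pw (Fin 6) E) R h h := by
    intro x y hxy
    exact hh (0 : Fin 1) (fun i => ![x i, y i]) hxy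
  obtain ⟨s₀, hs₀⟩ : ∃ s₀ : Cmp R t₀, s₀.1 = t₀ := ⟨⟨t₀, Relation.ReflTransGen.refl⟩, rfl⟩
  have hfS : Finite (Cmp R t₀) := Subtype.finite
  choose φ hφ using fun s => exists_lim (p s) (fun x : Cmp E x₀ => h (fun _ => x.1))
  have hφA : Arc (CE R t₀) R φ φ := by
    intro s t hst
    obtain ⟨a, ha, b, hb, hab⟩ := hp s t hst _ (hφ s) _ (hφ t)
    have h1 : R (h (fun _ => a.1)) (h (fun _ => b.1)) := hA _ _ (fun _ => hab)
    have h2 : h (fun _ => a.1) = φ s := ha
    have h3 : h (fun _ => b.1) = φ t := hb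
    rwa [h2, h3] at h1
  obtain ⟨ψ, _, hψ⟩ := hmap φ hφA
  obtain ⟨a, ha⟩ := (hφ s₀).exists
  have ha' : Relation.ReflTransGen R t₀ (h (fun _ => a.1)) := by
    rw [ha, hψ]
    exact (ψ s₀).2
  have hin : ∀ u : Fin 6 → Cmp E x₀, Relation.ReflTransGen R t₀ (h (fun i => (u i).1)) := by
    intro u
    have h1 : Walk (Pw (Fin 6) E) L (fun _ => a.1) (fun i => (u i).1) :=
      walk_pi fun i => walk_map (g := (Subtype.val : Cmp E x₀ → V)) (fun _ _ h => h)
        (hLw a (u i))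
    exact ha'.trans (rtg_of_walk (walk_map hA h1))
  have good : GoodT (CE R t₀) := by
    refine ⟨hfS, fun s t h => hI.symm _ _ h, fun t => hI.irr _, ?_, ⟨L', hL', hLw'⟩, ?_⟩
    · obtain ⟨k, hk⟩ := hL'
      have h1 := hLw' s₀ s₀
      rw [hk] at h1
      obtain ⟨z, hz, _⟩ := h1
      exact ⟨s₀, z, hz⟩
    · intro θ hθ
      obtain ⟨χ, hχ, hχ'⟩ := hmap (fun s => (θ s).1) (fun s t hst => hθ s t hst)
      have h1 : θ = χ := funext fun s => Subtype.ext (hχ' s)
      rw [h1]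
      exact hχ
  refine hFA (Cmp E x₀) (Cmp R t₀) (CE E x₀) (CE R t₀) p (fun x y h => hs _ _ h) ⟨L, hL, hLw⟩
    good hp (fun u => ⟨h (fun i => (u i).1), hin u⟩) (fun x y hxy => hA _ _ hxy) ?_
  intro x y
  obtain ⟨h1, h2⟩ := ho x.1 y.1
  constructor
  · apply Subtype.ext
    show h (fun i => ((![x, x, y, y, y, x] : Fin 6 → Cmp E x₀) i).1) =
      h (fun i => ((![x, y, x, y, x, y] : Fin 6 → Cmp E x₀) i).1)
    rw [map_six', map_six']
    exact h1
  · apply Subtype.ext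
    show h (fun i => ((![x, y, x, y, x, y] : Fin 6 → Cmp E x₀) i).1) =
      h (fun i => ((![y, x, x, x, y, y] : Fin 6 → Cmp E x₀) i).1)
    rw [map_six', map_six']
    exact h2

end Pool.Agent.H22.HN
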