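import Pool.Agent.H58.HN.TargetsT

/-! hnet_modules, row TL: the chain maps of the diagonal and of the sections. -/

set_option autoImplicit false

noncomputable section

namespace Pool.Agent.H22.HN

open Pool.Agent.H58.HN
open Classical
open scoped TensorProduct

variable {P Q : Type} [PartialOrder P] [PartialOrder Q]

private theorem lc_e' {X : Type} [AddCommGroup X] [Module ℚ X] (f : Ch P → X) (s : Ch P) :
    Finsupp.linearCombination ℚ f (e s) = f s := by
  rw [e, Finsupp.linearCombination_single, one_smul]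

private theorem bd_pt (y : P) : bd (e (pt y)) = e (nil : Ch P) := by
  have h : bd (e (pt y)) = ∑ x ∈ (pt y).1, sg (pt y) x • e (er (pt y) x) := lc_e' _ _
  have h2 : (pt y).1 = ({y} : Finset P) := rfl
  rw [h, h2, Finset.sum_singleton]
  have h3 : er (pt y) y = nil := by
    refine Subtype.ext ?_
    change ({y} : Finset P).erase y = ∅
    simp
  have h4 : sg (pt y) y = 1 := by
    unfold sg
    rw [h2]
    have : ({y} : Finset P).filter (fun z => z < y) = ∅ := by
      ext z
      simp only [Finset.mem_filter, Finset.mem_singleton, Finset.notMem_empty, iff_false, not_and]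
      rintro rfl
      exact lt_irrefl _
    rw [this, Finset.card_empty, pow_zero]
  rw [h3, h4, one_smul]

private theorem AW_e (s : Ch P) : AW (e s) = ∑ x ∈ s.1, e (lo s x) ⊗ₜ[ℚ] e (hi s x) := lc_e' _ s

private theorem chain_cmp (s : Ch P) {a b : P} (ha : a ∈ s.1) (hb : b ∈ s.1) : a ≤ b ∨ b ≤ a :=
  s.2.total (Finset.mem_coe.2 ha) (Finset.mem_coe.2 hb)

private theorem card_lo_hi (s : Ch P) {x : P} (hx : x ∈ s.1) :
    (lo s x).1.card + (hi s x).1.card = s.1.card + 1 := by
  have h1 : (lo s x).1 ∪ (hi s x).1 = s.1 := by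
    ext y
    change y ∈ s.1.filter (fun y => y ≤ x) ∪ s.1.filter (fun y => x ≤ y) ↔ _
    rw [Finset.mem_union, Finset.mem_filter, Finset.mem_filter]
    constructor
    · rintro (h | h)
      · exact h.1
      · exact h.1
    · intro h
      rcases chain_cmp s h hx with h2 | h2
      · exact Or.inl ⟨h, h2⟩
      · exact Or.inr ⟨h, h2⟩
  have h2 : (lo s x).1 ∩ (hi s x).1 = {x} := by
    ext y
    change y ∈ s.1.filter (fun y => y ≤ x) ∩ s.1.filter (fun y => x ≤ y) ↔ _
    rw [Finset.mem_inter, Finset.mem_filter, Finset.mem_filter, Finset.mem_singleton]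
    constructor
    · rintro ⟨h, h'⟩
      exact le_antisymm h.2 h'.2
    · rintro rfl
      exact ⟨⟨hx, le_rfl⟩, ⟨hx, le_rfl⟩⟩
  have h3 := Finset.card_union_add_card_inter (lo s x).1 (hi s x).1
  rw [h1, h2, Finset.card_singleton] at h3
  exact h3.symm

private theorem lo_ne (s : Ch P) {x : P} (hx : x ∈ s.1) : (lo s x).1.Nonempty :=
  ⟨x, Finset.mem_filter.2 ⟨hx, le_rfl⟩⟩

private theorem hi_ne (s : Ch P) {x : P} (hx : x ∈ s.1) : (hi s x).1.Nonempty :=
  ⟨x, Finset.mem_filter.2 ⟨hx, le_rfl⟩⟩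

private theorem pt_ne (x : P) : (pt x).1.Nonempty := ⟨x, Finset.mem_singleton.2 rfl⟩

private theorem pt_card (x : P) : (pt x).1.card = 1 := Finset.card_singleton x

private theorem mem_pt {x y : P} (h : y ∈ (pt x).1) : y = x := Finset.mem_singleton.1 h

private theorem Sp_mono {A B : Ch P → Prop} (h : ∀ s, A s → B s) : Sp A ≤ Sp B :=
  Finsupp.supported_mono fun s hs => h s hs

private theorem bp_e (s : Ch P) : bp (e s) = if 2 ≤ s.1.card then bd (e s) else 0 := lc_e' _ s

private theorem om_e (s : Ch P) : om (e s) = (-1 : ℚ) ^ (s.1.card + 1) • e s := lc_e' _ s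

private theorem D2_t (a b : CG P) : D2 (a ⊗ₜ[ℚ] b) = bp a ⊗ₜ[ℚ] b + om a ⊗ₜ[ℚ] bp b := by
  unfold D2
  rw [LinearMap.add_apply, TensorProduct.map_tmul, TensorProduct.map_tmul]
  rfl

theorem pf_TL (hJ : T_TJ) : T_TL := by
  intro P Q _ _ F μ hμ
  refine ⟨⟨?_, ?_, ?_⟩, fun v => ⟨?_, ?_, ?_⟩, fun u => ⟨?_, ?_, ?_⟩⟩
  · intro s hs
    change μ (AW (e s)) ∈ _
    rw [AW_e, map_sum]
    refine Submodule.sum_mem _ fun x hx => ?_
    refine Sp_mono (fun w hw => ?_) (hμ.car (lo s x) (hi s x) (lo_ne s hx) (hi_ne s hx))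
    obtain ⟨h1, h2⟩ := hw
    have h3 := card_lo_hi s hx
    refine ⟨by omega, fun y hy => ?_⟩
    obtain ⟨a, ha, b, hb, hab⟩ := h2 y hy
    have ha' := Finset.mem_filter.1 ha
    have hb' := Finset.mem_filter.1 hb
    refine ⟨b, hb'.1, hab.trans ?_⟩
    exact F.monotone (Prod.mk_le_mk.2 ⟨ha'.2.trans hb'.2, le_rfl⟩)
  · intro s hs
    change bd (μ (AW (e s))) = μ (AW (bd (e s)))
    rw [← hJ, AW_e, map_sum, map_sum, map_sum, map_sum]
    refine Finset.sum_congr rfl fun x hx => ?_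
    have h3 := card_lo_hi s hx
    exact hμ.com (lo s x) (hi s x) (lo_ne s hx) (hi_ne s hx) (by omega)
  · intro x
    change bd (μ (AW (e (pt x)))) = _
    rw [AW_e]
    have h1 : (pt x).1 = ({x} : Finset P) := rfl
    have h2 : lo (pt x) x = pt x := by
      refine Subtype.ext ?_
      change ({x} : Finset P).filter (fun y => y ≤ x) = {x}
      ext y
      simp only [Finset.mem_filter, Finset.mem_singleton]
      constructor
      · exact fun h => h.1
      · rintro rfl
        exact ⟨rfl, le_rfl⟩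
    have h3 : hi (pt x) x = pt x := by
      refine Subtype.ext ?_
      change ({x} : Finset P).filter (fun y => x ≤ y) = {x}
      ext y
      simp only [Finset.mem_filter, Finset.mem_singleton]
      constructor
      · exact fun h => h.1
      · rintro rfl
        exact ⟨rfl, le_rfl⟩
    rw [h1, Finset.sum_singleton, h2, h3, hμ.pt, bd_pt]
  · intro s hs
    change μ (e s ⊗ₜ[ℚ] e (pt v)) ∈ _
    refine Sp_mono (fun w hw => ?_) (hμ.car s (pt v) hs (pt_ne v))
    obtain ⟨h1, h2⟩ := hw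
    rw [pt_card] at h1
    refine ⟨by omega, fun y hy => ?_⟩
    obtain ⟨a, ha, b, hb, hab⟩ := h2 y hy
    rw [mem_pt hb] at hab
    exact ⟨a, ha, hab⟩
  · intro s hs
    change bd (μ (e s ⊗ₜ[ℚ] e (pt v))) = μ (bd (e s) ⊗ₜ[ℚ] e (pt v))
    have h0 : s.1.Nonempty := Finset.card_pos.1 (by omega)
    rw [hμ.com s (pt v) h0 (pt_ne v) (by rw [pt_card]; omega), D2_t, bp_e, if_pos hs, bp_e,
      pt_card, if_neg (by norm_num), TensorProduct.tmul_zero, add_zero]
  · intro x
    change bd (μ (e (pt x) ⊗ₜ[ℚ] e (pt v))) = _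
    rw [hμ.pt, bd_pt]
  · intro s hs
    change μ (e (pt u) ⊗ₜ[ℚ] e s) ∈ _
    refine Sp_mono (fun w hw => ?_) (hμ.car (pt u) s (pt_ne u) hs)
    obtain ⟨h1, h2⟩ := hw
    rw [pt_card] at h1
    refine ⟨by omega, fun y hy => ?_⟩
    obtain ⟨a, ha, b, hb, hab⟩ := h2 y hy
    rw [mem_pt ha] at hab
    exact ⟨b, hb, hab⟩
  · intro s hs
    change bd (μ (e (pt u) ⊗ₜ[ℚ] e s)) = μ (e (pt u) ⊗ₜ[ℚ] bd (e s))
    have h0 : s.1.Nonempty := Finset.card_pos.1 (by omega)
    rw [hμ.com (pt u) s (pt_ne u) h0 (by rw [pt_card]; omega), D2_t, bp_e, pt_card,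
      if_neg (by norm_num), TensorProduct.zero_tmul, zero_add, bp_e, if_pos hs, om_e, pt_card]
    norm_num
  · intro x
    change bd (μ (e (pt u) ⊗ₜ[ℚ] e (pt x))) = _
    rw [hμ.pt, bd_pt]

end Pool.Agent.H22.HN
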