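import Pool.Agent.H58.HN.TargetsT

/-! hnet_modules, row TM: contractions. -/

set_option autoImplicit false

noncomputable section

namespace Pool.Agent.H22.HN

open Pool.Agent.H58.HN
open Classical

variable {P : Type} [PartialOrder P]

private theorem mem_Sp_e {A : Ch P → Prop} {s : Ch P} (h : A s) : e s ∈ Sp A :=
  Finsupp.single_mem_supported ℚ 1 h

private theorem Sp_eq (A : Ch P → Prop) : Sp A = Submodule.span ℚ (e '' {s | A s}) :=
  Finsupp.supported_eq_span_single ℚ _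

private theorem eq_on_Sp {X : Type} [AddCommGroup X] [Module ℚ X] {A : Ch P → Prop}
    (f g : CG P →ₗ[ℚ] X) (h : ∀ s, A s → f (e s) = g (e s)) : ∀ w ∈ Sp A, f w = g w := by
  intro w hw
  rw [Sp_eq] at hw
  exact LinearMap.eqOn_span (by
    rintro _ ⟨s, hs, rfl⟩
    exact h s hs) hw

private theorem lc_e {X : Type} [AddCommGroup X] [Module ℚ X] (f : Ch P → X) (s : Ch P) :
    Finsupp.linearCombination ℚ f (e s) = f s := by
  rw [e, Finsupp.linearCombination_single, one_smul]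

private theorem bd_e (s : Ch P) : bd (e s) = ∑ x ∈ s.1, sg s x • e (er s x) := lc_e _ s

private theorem bd_mem {m : ℕ} {w : CG P} (hw : w ∈ G P (m + 1)) : bd w ∈ G P m := by
  have h : G P (m + 1) ≤ (G P m).comap bd := by
    rw [G, Sp_eq, Submodule.span_le]
    rintro _ ⟨s, hs, rfl⟩
    rw [SetLike.mem_coe, Submodule.mem_comap, bd_e]
    refine Submodule.sum_mem _ fun x hx => Submodule.smul_mem _ _ (mem_Sp_e ?_)
    rw [er, Finset.card_erase_of_mem hx]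
    rw [Set.mem_ofPred_eq] at hs
    omega
  exact h hw

private theorem bd_zero {s : Ch P} (hs : s.1.card = 0) : bd (e s) = 0 := by
  rw [bd_e, Finset.card_eq_zero.1 hs, Finset.sum_empty]

private theorem ex_rho {n : ℕ} (hV : Van P n) (m : ℕ) (hm : m < n) :
    ∃ ρ : CG P →ₗ[ℚ] CG P, ∀ z ∈ G P m, bd z = 0 → ρ z ∈ G P (m + 1) ∧ bd (ρ z) = z := by
  obtain ⟨Zm, hZ⟩ : ∃ Zm : Submodule ℚ (CG P), Zm = G P m ⊓ LinearMap.ker bd := ⟨_, rfl⟩
  obtain ⟨Ym, hY⟩ : ∃ Ym : Submodule ℚ (CG P), Ym = G P (m + 1) ⊓ Zm.comap bd := ⟨_, rfl⟩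
  have hmap : ∀ y : Ym, (bd ∘ₗ Ym.subtype) y ∈ Zm := by
    rintro ⟨y, hy⟩
    rw [hY] at hy
    exact hy.2
  obtain ⟨b, hb⟩ : ∃ b : Ym →ₗ[ℚ] Zm, b = LinearMap.codRestrict Zm (bd ∘ₗ Ym.subtype) hmap :=
    ⟨_, rfl⟩
  have hsurj : LinearMap.range b = ⊤ := by
    rw [LinearMap.range_eq_top]
    rintro ⟨z, hz⟩
    have hz' := hz
    rw [hZ] at hz'
    obtain ⟨y, hy, hyz⟩ := hV m hm z hz'.1 (LinearMap.mem_ker.1 hz'.2)
    refine ⟨⟨y, ?_⟩, ?_⟩
    · rw [hY]
      refine ⟨hy, ?_⟩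
      rw [SetLike.mem_coe, Submodule.mem_comap, hyz]
      exact hz
    · rw [hb]
      exact Subtype.ext hyz
  obtain ⟨r, hr⟩ := LinearMap.exists_rightInverse_of_surjective b hsurj
  obtain ⟨ρ, hρ⟩ := LinearMap.exists_extend (Ym.subtype ∘ₗ r)
  refine ⟨ρ, fun z hz hbz => ?_⟩
  have hzZ : z ∈ Zm := by
    rw [hZ]
    exact ⟨hz, LinearMap.mem_ker.2 hbz⟩
  have e1 : ρ z = (r ⟨z, hzZ⟩ : CG P) := by
    have := LinearMap.congr_fun hρ ⟨z, hzZ⟩
    exact this
  have hmem := (r ⟨z, hzZ⟩).2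
  have e2 : b (r ⟨z, hzZ⟩) = ⟨z, hzZ⟩ := LinearMap.congr_fun hr ⟨z, hzZ⟩
  rw [e1]
  refine ⟨?_, ?_⟩
  · have h3 : (r ⟨z, hzZ⟩ : CG P) ∈ G P (m + 1) ⊓ Zm.comap bd := by
      rw [← hY]
      exact hmem
    exact h3.1
  · have h4 := congrArg Subtype.val e2
    rw [hb] at h4
    exact h4

theorem pf_TM (hA : T_TA) : T_TM := by
  intro P _ n hV
  have hex : ∀ m : ℕ, ∃ ρ : CG P →ₗ[ℚ] CG P, m < n → ∀ z ∈ G P m, bd z = 0 →
      ρ z ∈ G P (m + 1) ∧ bd (ρ z) = z := by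
    intro m
    by_cases hm : m < n
    · obtain ⟨ρ, hρ⟩ := ex_rho hV m hm
      exact ⟨ρ, fun _ => hρ⟩
    · exact ⟨0, fun h => absurd h hm⟩
  choose ρ hρ using hex
  obtain ⟨val, hval⟩ : ∃ val : Ch P → CG P, val = fun s : Ch P =>
      if n ≤ s.1.card then 0 else
        if s.1.card = 0 then ρ 0 (e s) else
          ρ s.1.card (e s - ρ (s.1.card - 1) (bd (e s))) := ⟨_, rfl⟩
  obtain ⟨σ, hσ⟩ : ∃ σ : CG P →ₗ[ℚ] CG P, σ = Finsupp.linearCombination ℚ val := ⟨_, rfl⟩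
  have hσe : ∀ s : Ch P, σ (e s) = val s := fun s => by rw [hσ, lc_e]
  have hσ0 : ∀ s : Ch P, n ≤ s.1.card → σ (e s) = 0 := by
    intro s hs
    rw [hσe, hval]
    simp only [if_pos hs]
  have hσz : ∀ s : Ch P, s.1.card < n → s.1.card = 0 → σ (e s) = ρ 0 (e s) := by
    intro s hs h0
    rw [hσe, hval]
    simp only [if_neg (not_le.2 hs), if_pos h0]
  have hσp : ∀ s : Ch P, s.1.card < n → s.1.card ≠ 0 →
      σ (e s) = ρ s.1.card (e s - ρ (s.1.card - 1) (bd (e s))) := by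
    intro s hs h0
    rw [hσe, hval]
    simp only [if_neg (not_le.2 hs), if_neg h0]
  have hme : ∀ s : Ch P, e s ∈ G P s.1.card := fun s => mem_Sp_e rfl
  -- the main facts
  have hz : ∀ s : Ch P, s.1.card < n → s.1.card = 0 →
      ρ 0 (e s) ∈ G P (0 + 1) ∧ bd (ρ 0 (e s)) = e s := by
    intro s hs h0
    have h1 := hme s
    rw [h0] at h1
    exact hρ 0 (by omega) (e s) h1 (bd_zero h0)
  have hbs : ∀ s : Ch P, s.1.card < n → s.1.card ≠ 0 → bd (e s) ∈ G P (s.1.card - 1) := by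
    intro s hs h0
    refine bd_mem ?_
    rw [Nat.sub_add_cancel (Nat.one_le_iff_ne_zero.2 h0)]
    exact hme s
  have hp1 : ∀ s : Ch P, s.1.card < n → s.1.card ≠ 0 →
      ρ (s.1.card - 1) (bd (e s)) ∈ G P s.1.card ∧
        bd (ρ (s.1.card - 1) (bd (e s))) = bd (e s) := by
    intro s hs h0
    have h1 := hρ (s.1.card - 1) (by omega) (bd (e s)) (hbs s hs h0) (hA P _)
    rw [Nat.sub_add_cancel (Nat.one_le_iff_ne_zero.2 h0)] at h1
    exact h1
  have hp2 : ∀ s : Ch P, s.1.card < n → s.1.card ≠ 0 →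
      ρ s.1.card (e s - ρ (s.1.card - 1) (bd (e s))) ∈ G P (s.1.card + 1) ∧
        bd (ρ s.1.card (e s - ρ (s.1.card - 1) (bd (e s)))) =
          e s - ρ (s.1.card - 1) (bd (e s)) := by
    intro s hs h0
    obtain ⟨h1, h2⟩ := hp1 s hs h0
    refine hρ s.1.card hs _ (Submodule.sub_mem _ (hme s) h1) ?_
    rw [map_sub, h2, sub_self]
  refine ⟨σ, ⟨hσ0, ?_, ?_⟩⟩
  · intro s hs
    by_cases h0 : s.1.card = 0
    · rw [hσz s hs h0, h0]
      exact (hz s hs h0).1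
    · rw [hσp s hs h0]
      exact (hp2 s hs h0).1
  · intro s hs
    by_cases h0 : s.1.card = 0
    · rw [hσz s hs h0, (hz s hs h0).2, bd_zero h0, map_zero, add_zero]
    · rw [hσp s hs h0, (hp2 s hs h0).2]
      have hs1 : s.1.card - 1 < n := by omega
      have hσb : σ (bd (e s)) = ρ (s.1.card - 1) (bd (e s)) := by
        have hw := hbs s hs h0
        by_cases h1 : s.1.card - 1 = 0
        · rw [h1] at hw ⊢
          refine eq_on_Sp (A := fun t : Ch P => t.1.card = 0) σ (ρ 0) (fun t ht => ?_) _ hw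
          exact hσz t (by omega) ht
        · have h2 : σ (bd (e s)) = (ρ (s.1.card - 1) ∘ₗ
              (LinearMap.id - ρ (s.1.card - 1 - 1) ∘ₗ bd)) (bd (e s)) := by
            refine eq_on_Sp (A := fun t : Ch P => t.1.card = s.1.card - 1) σ _
              (fun t ht => ?_) _ hw
            rw [hσp t (by omega) (by omega), ht]
            rfl
          rw [h2]
          have h3 : (ρ (s.1.card - 1) ∘ₗ (LinearMap.id - ρ (s.1.card - 1 - 1) ∘ₗ bd))
              (bd (e s)) = ρ (s.1.card - 1) (bd (e s) - ρ (s.1.card - 1 - 1) (bd (bd (e s)))) :=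
            rfl
          rw [h3, hA P, map_zero, sub_zero]
      rw [hσb]
      abel

end Pool.Agent.H22.HN
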